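import Pool.Agent.Helper45.HP.Defs

/-!
# Block B of project HP: the arithmetic condition holds for few integers only
-/

set_option autoImplicit false

namespace Pool.Agent.HP

open Polynomial Filter Topology

private theorem aeval_quad99 {q : ℤ[X]} (hq : q.natDegree = 2) {R : Type} [CommRing R] (r : R) :
    aeval r q = (q.coeff 2 : R) * r ^ 2 + (q.coeff 1 : R) * r + (q.coeff 0 : R) := by
  rw [aeval_eq_sum_range, hq]
  simp only [Finset.sum_range_succ, Finset.sum_range_zero, zero_add, pow_zero, pow_one, zsmul_eq_mul]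
  ring

private theorem root_sq99 {q : ℤ[X]} (hq : q.natDegree = 2) {p : ℕ} {r : ZMod p} (hr : aeval r q = 0) :
    IsSquare ((disc q : ℤ) : ZMod p) := by
  refine ⟨2 * (q.coeff 2 : ZMod p) * r + (q.coeff 1 : ZMod p), ?_⟩
  rw [aeval_quad99 hq] at hr
  unfold disc
  push_cast
  linear_combination (-4) * (q.coeff 2 : ZMod p) * hr

private theorem cast_ne99 {p : ℕ} {a : ℤ} (h : ¬ (p : ℤ) ∣ a) : (a : ZMod p) ≠ 0 := by
  rwa [Ne, ZMod.intCast_zmod_eq_zero_iff_dvd]

private theorem jac_one99 {p : ℕ} (hp : p.Prime) {a : ℤ} (ha : ¬ (p : ℤ) ∣ a) (h : IsSquare (a : ZMod p)) :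
    jacobiSym a p = 1 := by
  have := Fact.mk hp
  rw [← jacobiSym.legendreSym.to_jacobiSym, legendreSym.eq_one_iff p (cast_ne99 ha)]
  exact h

private theorem jac_neg99 {p : ℕ} (hp : p.Prime) {a : ℤ} (h : ¬ IsSquare (a : ZMod p)) :
    jacobiSym a p = -1 := by
  have := Fact.mk hp
  rw [← jacobiSym.legendreSym.to_jacobiSym, legendreSym.eq_neg_one_iff p]
  exact h

private theorem roots_le99 {q : ℤ[X]} (hq : q.natDegree = 2) {p : ℕ} [hp : Fact p.Prime]
    (ha : ¬ (p : ℤ) ∣ q.coeff 2) (hd : ¬ (p : ℤ) ∣ disc q) :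
    (((Finset.univ : Finset (ZMod p)).filter fun r => aeval r q = 0).card : ℤ) ≤
      1 + jacobiSym (disc q) p := by
  classical
  by_cases h : IsSquare ((disc q : ℤ) : ZMod p)
  · rw [jac_one99 hp.out hd h]
    set Q : (ZMod p)[X] := q.map (algebraMap ℤ (ZMod p)) with hQ
    have hQ0 : Q ≠ 0 := by
      intro h0
      have : Q.coeff 2 = 0 := by rw [h0, coeff_zero]
      rw [hQ, coeff_map] at this
      exact cast_ne99 ha (by simpa using this)
    have hsub : ((Finset.univ : Finset (ZMod p)).filter fun r => aeval r q = 0) ⊆ Q.roots.toFinset := by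
      intro r hr
      rw [Finset.mem_filter] at hr
      rw [Multiset.mem_toFinset, mem_roots hQ0, IsRoot.def, hQ, eval_map_algebraMap]
      exact hr.2
    have h1 := (Finset.card_le_card hsub).trans (Multiset.toFinset_card_le _)
    have h2 := h1.trans (card_roots' Q)
    have h3 : Q.natDegree ≤ 2 := by
      rw [hQ, ← hq]; exact natDegree_map_le
    have h4 := h2.trans h3
    push_cast
    have : ((((Finset.univ : Finset (ZMod p)).filter fun r => aeval r q = 0).card : ℕ) : ℤ) ≤ (2 : ℕ) := by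
      exact_mod_cast h4
    simpa using this
  · rw [jac_neg99 hp.out h]
    have : ((Finset.univ : Finset (ZMod p)).filter fun r => aeval r q = 0) = ∅ := by
      rw [Finset.filter_eq_empty_iff]
      intro r _ hr
      exact h (root_sq99 hq hr)
    rw [this]; simp

/-! ### good primes -/

private def Gd99 (P : ℕ → Prop) : Prop := ∃ N : ℕ, N ≠ 0 ∧ ∀ p : ℕ, p.Prime → ¬ p ∣ N → P p

private theorem gd_and99 {P Q : ℕ → Prop} (hP : Gd99 P) (hQ : Gd99 Q) : Gd99 (fun p => P p ∧ Q p) := by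
  obtain ⟨N, hN, h⟩ := hP
  obtain ⟨N', hN', h'⟩ := hQ
  exact ⟨N * N', mul_ne_zero hN hN', fun p hp hd =>
    ⟨h p hp (fun h0 => hd (h0.mul_right _)), h' p hp (fun h0 => hd (h0.mul_left _))⟩⟩

private theorem gd_all99 {ι : Type} [Fintype ι] {P : ι → ℕ → Prop} (hP : ∀ i, Gd99 (P i)) :
    Gd99 (fun p => ∀ i, P i p) := by
  choose N hN h using hP
  refine ⟨∏ i, N i, Finset.prod_ne_zero_iff.2 fun i _ => hN i, fun p hp hd i => h i p hp fun h0 => hd ?_⟩
  exact h0.trans (Finset.dvd_prod_of_mem _ (Finset.mem_univ i))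

private theorem gd_int99 {a : ℤ} (ha : a ≠ 0) : Gd99 (fun p => ¬ (p : ℤ) ∣ a) :=
  ⟨a.natAbs, Int.natAbs_ne_zero.2 ha, fun _ _ hd h => hd (Int.natCast_dvd.1 h)⟩

private theorem gd_cop99 {f g : ℤ[X]} (h : IsCoprime (f.map (Int.castRingHom ℚ)) (g.map (Int.castRingHom ℚ))) :
    Gd99 (fun p => ∀ r : ZMod p, aeval r f = 0 → aeval r g ≠ 0) := by
  obtain ⟨a, b, hab⟩ := h
  obtain ⟨na, hnam, hna⟩ := IsLocalization.integerNormalization_spec (nonZeroDivisors ℤ) a
  obtain ⟨nb, hnbm, hnb⟩ := IsLocalization.integerNormalization_spec (nonZeroDivisors ℤ) b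
  set A := IsLocalization.integerNormalization (nonZeroDivisors ℤ) a with hA
  set B := IsLocalization.integerNormalization (nonZeroDivisors ℤ) b with hB
  have hna0 : na ≠ 0 := nonZeroDivisors.ne_zero hnam
  have hnb0 : nb ≠ 0 := nonZeroDivisors.ne_zero hnbm
  have e : algebraMap ℤ ℚ = Int.castRingHom ℚ := rfl
  have key : C nb * A * f + C na * B * g = C (na * nb) := by
    apply map_injective (Int.castRingHom ℚ) (RingHom.injective_int _)
    simp only [Polynomial.map_add, Polynomial.map_mul, map_C]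
    rw [← e, hna, hnb, e]
    have h1 : (na • a : ℚ[X]) = C (na : ℚ) * a := by
      rw [← smul_eq_C_mul]; simp [Algebra.smul_def]
    have h2 : (nb • b : ℚ[X]) = C (nb : ℚ) * b := by
      rw [← smul_eq_C_mul]; simp [Algebra.smul_def]
    simp only [eq_intCast]
    rw [h1, h2]
    push_cast
    rw [C_mul]
    linear_combination (C (na : ℚ) * C (nb : ℚ)) * hab
  obtain ⟨N, hN, hNp⟩ := gd_int99 (mul_ne_zero hna0 hnb0)
  refine ⟨N, hN, fun p hp hd r hf hg => ?_⟩
  have h := congrArg (aeval r) key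
  rw [map_add, map_mul, map_mul, map_mul, map_mul, hf, hg, mul_zero, mul_zero, add_zero, aeval_C] at h
  have h3 := cast_ne99 (hNp p hp hd)
  apply h3
  rw [← eq_intCast (algebraMap ℤ (ZMod p))]
  exact h.symm

private theorem good_primes99 {q : Fin 3 → ℤ[X]} (hdeg : ∀ i, (q i).natDegree = 2)
    (hsep : ((∏ i, q i).map (Int.castRingHom ℚ)).Separable) (hns : ∀ i, ¬ IsSquare (disc (q i))) :
    Gd99 (fun p => (∀ i, ¬ (p : ℤ) ∣ (q i).coeff 2) ∧ (∀ i, ¬ (p : ℤ) ∣ disc (q i)) ∧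
      ∀ i j, i ≠ j → ∀ r : ZMod p, aeval r (q i) = 0 → aeval r (q j) ≠ 0) := by
  classical
  refine gd_and99 (gd_all99 fun i => gd_int99 ?_) (gd_and99 (gd_all99 fun i => gd_int99 ?_)
    (gd_all99 fun i => gd_all99 fun j => ?_))
  · intro h0
    have h1 : (q i).leadingCoeff = 0 := by rw [leadingCoeff, hdeg i, h0]
    rw [leadingCoeff_eq_zero] at h1
    have := hdeg i
    rw [h1] at this; simp at this
  · intro h0
    apply hns i
    rw [h0]; exact IsSquare.zero
  · by_cases hij : i = j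
    · exact ⟨1, one_ne_zero, fun p _ _ h => absurd hij h⟩
    · have hcop : IsCoprime ((q i).map (Int.castRingHom ℚ)) ((q j).map (Int.castRingHom ℚ)) := by
        rw [Polynomial.map_prod, ← Finset.mul_prod_erase _ _ (Finset.mem_univ i),
          ← Finset.mul_prod_erase _ _ (Finset.mem_erase.2 ⟨Ne.symm hij, Finset.mem_univ j⟩)] at hsep
        exact hsep.isCoprime.of_mul_right_left
      obtain ⟨N, hN, h⟩ := gd_cop99 hcop
      exact ⟨N, hN, fun p hp hd _ => h p hp hd⟩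

/-! ### the options -/

open Classical in
/-- the options at `p` for the constants `b` -/
noncomputable def VV99 (q : Fin 3 → ℤ[X]) (b : Fin 3 → ℤ) (p : ℕ) : Finset Opt :=
  Finset.univ.filter fun o => o.2 o.1 = 1 ∧ ∃ r : ZMod p, aeval r (q o.1) = 0 ∧
    ∀ j, j ≠ o.1 → (o.2 j = 1 ↔ IsSquare ((b j : ZMod p) * aeval r (q j)))

private theorem mem_VVx99 {q : Fin 3 → ℤ[X]} {b : Fin 3 → ℤ} {p : ℕ} {o : Opt} : o ∈ VV99 q b p ↔
    o.2 o.1 = 1 ∧ ∃ r : ZMod p, aeval r (q o.1) = 0 ∧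
      ∀ j, j ≠ o.1 → (o.2 j = 1 ↔ IsSquare ((b j : ZMod p) * aeval r (q j))) := by
  classical
  unfold VV99
  rw [Finset.mem_filter]
  simp only [Finset.mem_univ, true_and]

private theorem card_VVx99 {q : Fin 3 → ℤ[X]} (b : Fin 3 → ℤ) (hdeg : ∀ i, (q i).natDegree = 2) {p : ℕ}
    (hp : p.Prime) (ha : ∀ i, ¬ (p : ℤ) ∣ (q i).coeff 2) (hd : ∀ i, ¬ (p : ℤ) ∣ disc (q i)) :
    ((VV99 q b p).card : ℤ) ≤ ∑ i, (1 + jacobiSym (disc (q i)) p) := by
  classical
  have := Fact.mk hp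
  have hex : ∀ o : Opt, ∃ r : ZMod p, o ∈ VV99 q b p → aeval r (q o.1) = 0 ∧
      ∀ j, j ≠ o.1 → (o.2 j = 1 ↔ IsSquare ((b j : ZMod p) * aeval r (q j))) := by
    intro o
    by_cases ho : o ∈ VV99 q b p
    · obtain ⟨r, hr⟩ := (mem_VVx99.1 ho).2
      exact ⟨r, fun _ => hr⟩
    · exact ⟨0, fun h => absurd h ho⟩
  choose R hR using hex
  set T : Finset (Fin 3 × ZMod p) := Finset.univ.filter fun x => aeval x.2 (q x.1) = 0 with hT
  have h1 : (VV99 q b p).card ≤ T.card := by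
    refine Finset.card_le_card_of_injOn (fun o => (o.1, R o)) ?_ ?_
    · intro o ho
      rw [Finset.mem_coe] at ho
      rw [Finset.mem_coe, hT, Finset.mem_filter]
      exact ⟨Finset.mem_univ _, (hR o ho).1⟩
    · intro o ho o' ho' h
      rw [Finset.mem_coe] at ho ho'
      have h' : (o.1, R o) = (o'.1, R o') := h
      obtain ⟨e1, e2⟩ := Prod.mk.inj h'
      refine Prod.ext e1 (funext fun j => ?_)
      have s1 := (mem_VVx99.1 ho).1
      have s2 := (mem_VVx99.1 ho').1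
      by_cases hj : j = o.1
      · rw [hj, s1, e1, s2]
      · have t1 := (hR o ho).2 j hj
        have t2 := (hR o' ho').2 j (by rwa [← e1])
        rw [← e2] at t2
        rcases Int.units_eq_one_or (o.2 j) with h3 | h3 <;>
          rcases Int.units_eq_one_or (o'.2 j) with h4 | h4
        · rw [h3, h4]
        · exact absurd (t2.2 (t1.1 h3)) (by rw [h4]; decide)
        · exact absurd (t1.2 (t2.1 h4)) (by rw [h3]; decide)
        · rw [h3, h4]
  have h2 : T.card = ∑ i : Fin 3, ((Finset.univ : Finset (ZMod p)).filter fun r => aeval r (q i) = 0).card := by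
    rw [hT, Finset.card_filter, Fintype.sum_prod_type]
    refine Finset.sum_congr rfl fun i _ => ?_
    rw [Finset.card_filter]
  calc ((VV99 q b p).card : ℤ) ≤ (T.card : ℤ) := by exact_mod_cast h1
    _ = ∑ i : Fin 3, (((Finset.univ : Finset (ZMod p)).filter fun r => aeval r (q i) = 0).card : ℤ) := by
        rw [h2]; push_cast; rfl
    _ ≤ _ := Finset.sum_le_sum fun i _ => roots_le99 (hdeg i) (ha i) (hd i)

private theorem isSquare_iff99 {F : Type} [Field F] {x y : F} (hx : x ≠ 0) (hy : y ≠ 0)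
    (h : IsSquare (x * y)) : IsSquare x ↔ IsSquare y := by
  constructor
  · intro h1
    have : y = (x * y) / x := by field_simp
    rw [this]; exact h.div h1
  · intro h1
    have : x = (x * y) / y := by field_simp
    rw [this]; exact h.div h1

private theorem abad99 {q : Fin 3 → ℤ[X]} {M M' : ℕ} (hM' : M' ≠ 0) (hMM : M ∣ M')
    (hgood : ∀ p : ℕ, p.Prime → ¬ p ∣ M' → ∀ i j, i ≠ j → ∀ r : ZMod p, aeval r (q i) = 0 →
      aeval r (q j) ≠ 0) {c : ℕ} (hc0 : c ≠ 0) (hb : Bad q M (c : ℤ)) :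
    ∃ b ∈ Fintype.piFinset (fun _ : Fin 3 => Finset.Icc (-(M' : ℤ)) M'), ABad M' (VV99 q b) c := by
  classical
  obtain ⟨D, hDsq, hDp, hD⟩ := hb
  have key : ∀ p : ℕ, ∃ i : Fin 3, ∃ r : ZMod p, (p.Prime → ¬ p ∣ M' → p ∣ c →
      (∀ j, (p : ℤ) ∣ D j ↔ j = i) ∧ aeval r (q i) = 0 ∧
        ∀ j, j ≠ i → IsSquare ((D j : ZMod p) * aeval r (q j))) := by
    intro p
    by_cases h : p.Prime ∧ ¬ p ∣ M' ∧ p ∣ c
    · obtain ⟨i, hi, r, hr, hr'⟩ := hD p h.1 (fun h0 => h.2.1 (h0.trans hMM)) (by exact_mod_cast h.2.2)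
      exact ⟨i, r, fun _ _ _ => ⟨hi, hr, hr'⟩⟩
    · exact ⟨0, 0, fun h1 h2 h3 => absurd ⟨h1, h2, h3⟩ h⟩
  choose I R hIR using key
  set P : Fin 3 → ℕ := fun j => ∏ p ∈ c.primeFactors.filter (fun p => ¬ p ∣ M' ∧ I p = j), p with hP
  have hPD : ∀ j, ((P j : ℕ) : ℤ) ∣ D j := by
    intro j
    rw [Int.natCast_dvd]
    refine Finset.prod_primes_dvd _ (fun p hp => ?_) (fun p hp => ?_)
    · exact (Nat.prime_of_mem_primeFactors (Finset.mem_filter.1 hp).1).prime
    · rw [Finset.mem_filter] at hp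
      have hpr := Nat.prime_of_mem_primeFactors hp.1
      have := ((hIR p hpr hp.2.1 (Nat.dvd_of_mem_primeFactors hp.1)).1 j).2 hp.2.2.symm
      exact Int.natCast_dvd.1 this
  choose b hb using hPD
  have hD0 : ∀ j, D j ≠ 0 := fun j => (hDsq j).ne_zero
  have hb0 : ∀ j, b j ≠ 0 := fun j h0 => hD0 j (by rw [hb j, h0, mul_zero])
  refine ⟨b, ?_, ?_⟩
  · rw [Fintype.mem_piFinset]
    intro j
    rw [Finset.mem_Icc, ← abs_le]
    have hsq : Squarefree (b j).natAbs := by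
      rw [Int.squarefree_natAbs]
      exact (hDsq j).squarefree_of_dvd ⟨P j, by rw [hb j]; ring⟩
    have hle : (b j).natAbs ∣ M' := by
      rw [← Nat.prod_primeFactors_of_squarefree hsq]
      refine Finset.prod_primes_dvd _ (fun p hp => (Nat.prime_of_mem_primeFactors hp).prime) ?_
      intro p hp
      have hpr := Nat.prime_of_mem_primeFactors hp
      have hpb : (p : ℤ) ∣ b j := Int.natCast_dvd.2 (Nat.dvd_of_mem_primeFactors hp)
      by_contra hpM
      have hpD : (p : ℤ) ∣ D j := by rw [hb j]; exact hpb.mul_left _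
      rcases hDp j p hpr hpD with h1 | h1
      · have hpc : p ∣ c := by exact_mod_cast h1
        have hj := ((hIR p hpr hpM hpc).1 j).1 hpD
        have hpP : p ∣ P j := by
          rw [hP]
          exact Finset.dvd_prod_of_mem _ (Finset.mem_filter.2 ⟨Nat.mem_primeFactors.2 ⟨hpr, hpc, hc0⟩, hpM, hj.symm⟩)
        have h2 : (p : ℤ) * p ∣ D j := by
          rw [hb j]
          exact mul_dvd_mul (by exact_mod_cast hpP) hpb
        have h3 := hDsq j _ h2
        rw [Int.isUnit_iff_natAbs_eq, Int.natAbs_natCast] at h3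
        exact hpr.one_lt.ne' h3
      · exact hpM (h1.trans hMM)
    have := Nat.le_of_dvd (Nat.pos_of_ne_zero hM') hle
    rw [Int.abs_eq_natAbs]
    exact_mod_cast this
  · refine ⟨fun p => (I p, fun j => if j = I p then 1 else
      if IsSquare ((b j : ZMod p) * aeval (R p) (q j)) then 1 else -1), ?_⟩
    intro p hp hpM
    have hpr := Nat.prime_of_mem_primeFactors hp
    have hpc := Nat.dvd_of_mem_primeFactors hp
    have := Fact.mk hpr
    obtain ⟨h1, h2, h3⟩ := hIR p hpr hpM hpc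
    refine ⟨?_, ?_⟩
    · rw [mem_VVx99]
      refine ⟨by simp, R p, h2, ?_⟩
      intro j hj
      have hj' : j ≠ I p := hj
      simp only [if_neg hj']
      constructor
      · intro h4
        by_contra h5
        rw [if_neg h5] at h4
        exact absurd h4 (by decide)
      · intro h4
        rw [if_pos h4]
    · intro j hj
      have hj' : j ≠ I p := hj
      have e : part M' (fun p => (I p, fun j => if j = I p then 1 else
        if IsSquare ((b j : ZMod p) * aeval (R p) (q j)) then 1 else -1)) c j = P j := rfl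
      rw [e]
      have hDj : ¬ (p : ℤ) ∣ D j := fun h => hj' ((h1 j).1 h)
      have hPj : ¬ (p : ℤ) ∣ ((P j : ℕ) : ℤ) := fun h => hDj (by rw [hb j]; exact h.mul_right _)
      have hbj : ¬ (p : ℤ) ∣ b j := fun h => hDj (by rw [hb j]; exact h.mul_left _)
      have hq := hgood p hpr hpM (I p) j (Ne.symm hj') (R p) h2
      have h4 := h3 j hj'
      rw [hb j] at h4
      push_cast at h4
      rw [mul_assoc] at h4
      have h5 := isSquare_iff99 (F := ZMod p) (x := ((P j : ℕ) : ZMod p)) (by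
        have := cast_ne99 hPj
        push_cast at this
        exact this) (mul_ne_zero (cast_ne99 hbj) hq) h4
      simp only [if_neg hj']
      by_cases h6 : IsSquare ((b j : ZMod p) * aeval (R p) (q j))
      · rw [if_pos h6, jac_one99 hpr hPj (by push_cast; exact h5.2 h6)]; rfl
      · rw [if_neg h6, jac_neg99 hpr (by push_cast; exact fun h => h6 (h5.1 h))]; rfl

/-! ### sums over primes -/

private theorem PP_sub99 {M₀ M' : ℕ} (h : M₀ ∣ M') (x : ℕ) : PP M' x ⊆ PP M₀ x := by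
  intro p hp
  unfold PP at *
  rw [Finset.mem_filter] at *
  exact ⟨hp.1, hp.2.1, fun h0 => hp.2.2 (h0.trans h)⟩

private theorem sum_diff99 {M₀ M' : ℕ} (h : M₀ ∣ M') (hM' : M' ≠ 0) (f : ℕ → ℝ) (hf : ∀ p, |f p| ≤ 1) (x : ℕ) :
    |∑ p ∈ PP M₀ x, f p / p - ∑ p ∈ PP M' x, f p / p| ≤ M'.primeFactors.card := by
  classical
  rw [← Finset.sum_sdiff (PP_sub99 h x), add_sub_cancel_right]
  refine (Finset.abs_sum_le_sum_abs _ _).trans ?_
  have h1 : PP M₀ x \ PP M' x ⊆ M'.primeFactors := by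
    intro p hp
    unfold PP at hp
    rw [Finset.mem_sdiff, Finset.mem_filter, Finset.mem_filter] at hp
    obtain ⟨⟨h1, h2, h3⟩, h4⟩ := hp
    rw [Nat.mem_primeFactors]
    refine ⟨h2, ?_, hM'⟩
    by_contra h5
    exact h4 ⟨h1, h2, h5⟩
  calc ∑ p ∈ PP M₀ x \ PP M' x, |f p / p| ≤ ∑ p ∈ PP M₀ x \ PP M' x, (1 : ℝ) := by
        refine Finset.sum_le_sum fun p hp => ?_
        unfold PP at hp
        rw [Finset.mem_sdiff, Finset.mem_filter] at hp
        have hp1 : (1 : ℝ) ≤ p := by exact_mod_cast hp.1.2.1.one_lt.le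
        rw [abs_div, Nat.abs_cast, div_le_one (by linarith)]
        exact (hf p).trans hp1
    _ = ((PP M₀ x \ PP M' x).card : ℝ) := by simp
    _ ≤ _ := by exact_mod_cast Finset.card_le_card h1

private theorem jac_abs99 (a : ℤ) (p : ℕ) : |(jacobiSym a p : ℝ)| ≤ 1 := by
  rcases jacobiSym.trichotomy a p with h | h | h <;> rw [h] <;> simp

private theorem mert99 (h : StmtMert) {M' : ℕ} (hM' : M' ≠ 0) : ∃ C : ℝ, ∀ x : ℕ, 2 ≤ x →
    |∑ p ∈ PP M' x, (1 : ℝ) / p - Real.log (Real.log x)| ≤ C := by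
  obtain ⟨C, hC⟩ := h
  refine ⟨C + M'.primeFactors.card, fun x hx => ?_⟩
  have h1 := (hC x hx).1
  have h2 := sum_diff99 (one_dvd M') hM' (fun _ => 1) (fun _ => by simp) x
  rw [abs_le] at *
  constructor <;> linarith [h1.1, h1.2, h2.1, h2.2]

private theorem char99 (h : StmtChar) {M' : ℕ} (hM' : M' ≠ 0) (h2M : 2 ∣ M') {Δ : ℤ} (hΔ : ¬ IsSquare Δ) :
    ∃ C : ℝ, ∀ x : ℕ, |∑ p ∈ PP M' x, (jacobiSym Δ p : ℝ) / p| ≤ C := by
  obtain ⟨C, hC⟩ := h Δ hΔ
  refine ⟨C + M'.primeFactors.card, fun x => ?_⟩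
  have h1 := hC x
  have h2 := sum_diff99 h2M hM' (fun p => (jacobiSym Δ p : ℝ)) (fun p => jac_abs99 Δ p) x
  rw [abs_le] at *
  constructor <;> linarith [h1.1, h1.2, h2.1, h2.2]

private theorem signs99 {q : Fin 3 → ℤ[X]} (hsq : IsSquare (∏ i, disc (q i))) {p : ℕ} (hp : p.Prime)
    (hd : ∀ i, ¬ (p : ℤ) ∣ disc (q i)) :
    (∀ i, jacobiSym (disc (q i)) p = 1 ∨ jacobiSym (disc (q i)) p = -1) ∧
      ∏ i, jacobiSym (disc (q i)) p = 1 := by
  refine ⟨fun i => ?_, ?_⟩
  · by_cases h : IsSquare ((disc (q i) : ℤ) : ZMod p)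
    · exact Or.inl (jac_one99 hp (hd i) h)
    · exact Or.inr (jac_neg99 hp h)
  · have h1 : ¬ (p : ℤ) ∣ ∏ i, disc (q i) := by
      intro h
      obtain ⟨i, _, hi⟩ := (Prime.dvd_finsetProd_iff (Nat.prime_iff_prime_int.1 hp) _).1 h
      exact hd i hi
    have h2 := jac_one99 hp h1 (hsq.map (Int.castRingHom (ZMod p)))
    rw [Fin.prod_univ_three] at h2 ⊢
    rw [jacobiSym.mul_left, jacobiSym.mul_left] at h2
    exact h2

private theorem ind99 {e : Fin 3 → ℤ} (he : ∀ i, e i = 1 ∨ e i = -1) (hp : ∏ i, e i = 1) (j : Fin 3) :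
    (if e j = 1 ∧ ∀ k, k ≠ j → e k = -1 then (1 : ℝ) else 0) =
      (1 + 2 * (e j : ℝ) - ∑ k, (e k : ℝ)) / 4 := by
  rw [Fin.prod_univ_three] at hp
  rw [Fin.sum_univ_three]
  have hj : j = 0 ∨ j = 1 ∨ j = 2 := by revert j; decide
  have hc : ∀ i k l : Fin 3, i ≠ k → i ≠ l → (∀ m, m = i ∨ m = k ∨ m = l) →
      ((e i = 1 ∧ ∀ m, m ≠ i → e m = -1) ↔ (e i = 1 ∧ e k = -1 ∧ e l = -1)) := by
    intro i k l h1 h2 h3
    refine ⟨fun h => ⟨h.1, h.2 k (Ne.symm h1), h.2 l (Ne.symm h2)⟩, fun h => ⟨h.1, fun m hm => ?_⟩⟩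
    rcases h3 m with h4 | h4 | h4
    · exact absurd h4 hm
    · rw [h4]; exact h.2.1
    · rw [h4]; exact h.2.2
  have c0 := hc 0 1 2 (by decide) (by decide) (by decide)
  have c1 := hc 1 0 2 (by decide) (by decide) (by decide)
  have c2 := hc 2 0 1 (by decide) (by decide) (by decide)
  rcases hj with h | h | h <;> subst h
  · rw [if_congr c0 rfl rfl]
    rcases he 0 with h0 | h0 <;> rcases he 1 with h1 | h1 <;> rcases he 2 with h2 | h2 <;>
      rw [h0, h1, h2] at hp ⊢ <;> first | (exfalso; norm_num at hp; done) | norm_num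
  · rw [if_congr c1 rfl rfl]
    rcases he 0 with h0 | h0 <;> rcases he 1 with h1 | h1 <;> rcases he 2 with h2 | h2 <;>
      rw [h0, h1, h2] at hp ⊢ <;> first | (exfalso; norm_num at hp; done) | norm_num
  · rw [if_congr c2 rfl rfl]
    rcases he 0 with h0 | h0 <;> rcases he 1 with h1 | h1 <;> rcases he 2 with h2 | h2 <;>
      rw [h0, h1, h2] at hp ⊢ <;> first | (exfalso; norm_num at hp; done) | norm_num

private theorem tail99 {F : ℕ → Finset ℕ} {E : ℕ → ℝ} (hE : ∀ x, E x = ∑ p ∈ F x, (1 : ℝ) / p) {Q : Set ℕ}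
    (hF : ∀ x p, p ∈ F x ↔ p ∈ Q ∧ p ≤ x) {C : ℝ}
    (hC : ∀ x : ℕ, 2 ≤ x → |E x - Real.log (Real.log x) / 4| ≤ C) (A : ℝ) :
    ∃ n : ℕ, 0 < n ∧ ∀ᶠ X : ℕ in atTop, ∀ S : Finset ℕ,
      (∀ p, p ∈ S ↔ p ∈ Q ∧ X < p ^ n ∧ p ^ 2 ≤ X) → A ≤ ∑ p ∈ S, (1 : ℝ) / p := by
  classical
  obtain ⟨n, hn⟩ := exists_nat_ge (Real.exp (Real.log 3 + 4 * (A + 2 * C)))
  have hn0 : 0 < n := by
    rcases Nat.eq_zero_or_pos n with h | h
    · rw [h] at hn
      exact absurd hn (not_le.2 (by push_cast; exact Real.exp_pos _))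
    · exact h
  have hlog : Real.log 3 + 4 * (A + 2 * C) ≤ Real.log n := by
    rw [Real.le_log_iff_exp_le (by exact_mod_cast hn0)]; exact hn
  refine ⟨n, hn0, ?_⟩
  filter_upwards [eventually_ge_atTop (2 ^ n), eventually_ge_atTop 16] with X hX2 hX16 S hS
  set y := Nat.sqrt X with hy
  set w := Nat.findGreatest (fun k => k ^ n ≤ X) X with hw
  have hw1 : w ^ n ≤ X := by
    have := Nat.findGreatest_spec (P := fun k => k ^ n ≤ X) (m := 1) (n := X) (by omega) (by simp only [one_pow]; omega)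
    exact this
  have hw2 : 2 ≤ w := Nat.le_findGreatest (by omega) hX2
  have hw3 : ∀ p, p ^ n ≤ X → p ≤ w := by
    intro p hp
    exact Nat.le_findGreatest ((Nat.le_self_pow hn0.ne' p).trans hp) hp
  have hy4 : 4 ≤ y := Nat.le_sqrt.2 (by omega)
  have hy1 : X < (y + 1) * (y + 1) := Nat.lt_succ_sqrt X
  have hy3 : X ≤ y ^ 3 := by nlinarith
  have hsub : F y \ F w ⊆ S := by
    intro p hp
    rw [Finset.mem_sdiff, hF, hF] at hp
    rw [hS]
    refine ⟨hp.1.1, ?_, ?_⟩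
    · by_contra h
      exact hp.2 ⟨hp.1.1, hw3 p (not_lt.1 h)⟩
    · rw [pow_two]; exact Nat.le_sqrt.1 hp.1.2
  have hnn : ∀ p : ℕ, (0 : ℝ) ≤ 1 / p := fun p => by positivity
  have hsum : E y ≤ ∑ p ∈ S, (1 : ℝ) / p + E w := by
    rw [hE, hE, ← Finset.sum_inter_add_sum_sdiff (F y) (F w), add_comm]
    refine add_le_add (Finset.sum_le_sum_of_subset_of_nonneg hsub fun p _ _ => hnn p)
      (Finset.sum_le_sum_of_subset_of_nonneg Finset.inter_subset_right fun p _ _ => hnn p)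
  have hXpos : (0 : ℝ) < X := by exact_mod_cast (by omega : 0 < X)
  have hlX : 0 < Real.log X := Real.log_pos (by exact_mod_cast (by omega : 1 < X))
  have hly : Real.log X / 3 ≤ Real.log y := by
    have h : Real.log X ≤ Real.log ((y : ℝ) ^ 3) := Real.log_le_log hXpos (by exact_mod_cast hy3)
    rw [Real.log_pow] at h
    push_cast at h
    linarith
  have hlly : Real.log (Real.log X) - Real.log 3 ≤ Real.log (Real.log y) := by
    rw [← Real.log_div hlX.ne' (by norm_num)]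
    exact Real.log_le_log (by positivity) hly
  have hlw0 : 0 < Real.log w := Real.log_pos (by exact_mod_cast (by omega : 1 < w))
  have hnpos : (0 : ℝ) < n := by exact_mod_cast hn0
  have hlw : Real.log w ≤ Real.log X / n := by
    have h : Real.log ((w : ℝ) ^ n) ≤ Real.log X :=
      Real.log_le_log (by have : (0 : ℝ) < w := by exact_mod_cast (by omega : 0 < w)
                          positivity) (by exact_mod_cast hw1)
    rw [Real.log_pow] at h
    rw [le_div_iff₀ hnpos]; linarith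
  have hllw : Real.log (Real.log w) ≤ Real.log (Real.log X) - Real.log n := by
    rw [← Real.log_div hlX.ne' hnpos.ne']
    exact Real.log_le_log hlw0 hlw
  have h1 := abs_le.1 (hC y (by omega))
  have h2 := abs_le.1 (hC w hw2)
  linarith [h1.1, h1.2, h2.1, h2.2]

/-- Block B: the arithmetic condition holds for a set of density zero only. -/
theorem blockB (h1 : StmtCount) (h2 : StmtMert) (h3 : StmtChar) : StmtB := by
  classical
  intro q hdeg hsep hns hsq M hM ε hε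
  obtain ⟨N, hN, hgN⟩ := good_primes99 hdeg hsep hns
  obtain ⟨M', hM'def⟩ : ∃ M', M' = M * (2 * N) := ⟨_, rfl⟩
  have hM' : M' ≠ 0 := by rw [hM'def]; exact mul_ne_zero hM (mul_ne_zero two_ne_zero hN)
  have hMM : M ∣ M' := ⟨2 * N, hM'def⟩
  have h2M : 2 ∣ M' := ⟨M * N, by rw [hM'def]; ring⟩
  have hNM : N ∣ M' := ⟨M * 2, by rw [hM'def]; ring⟩
  have hg : ∀ p : ℕ, p.Prime → ¬ p ∣ M' → (∀ i, ¬ (p : ℤ) ∣ (q i).coeff 2) ∧ (∀ i, ¬ (p : ℤ) ∣ disc (q i)) ∧
      ∀ i j, i ≠ j → ∀ r : ZMod p, aeval r (q i) = 0 → aeval r (q j) ≠ 0 :=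
    fun p hp h => hgN p hp (fun h0 => h (h0.trans hNM))
  obtain ⟨C1, hC1⟩ := mert99 h2 hM'
  have hch : ∀ i, ∃ C : ℝ, ∀ x : ℕ, |∑ p ∈ PP M' x, (jacobiSym (disc (q i)) p : ℝ) / p| ≤ C :=
    fun i => char99 h3 hM' h2M (hns i)
  choose C2 hC2 using hch
  have hPP : ∀ x p, p ∈ PP M' x → p.Prime ∧ ¬ p ∣ M' ∧ p ≤ x := by
    intro x p hp
    unfold PP at hp
    rw [Finset.mem_filter, Finset.mem_range] at hp
    exact ⟨hp.2.1, hp.2.2, by omega⟩
  -- the sets of special primes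
  set Qs : Fin 3 → Set ℕ := fun j => {p | p.Prime ∧ ¬ p ∣ M' ∧ (jacobiSym (disc (q j)) p = 1 ∧
    ∀ k, k ≠ j → jacobiSym (disc (q k)) p = -1)} with hQs
  have hQsum : ∀ j, ∀ A : ℝ, ∃ n : ℕ, 0 < n ∧ ∀ᶠ X : ℕ in atTop, ∀ S : Finset ℕ,
      (∀ p, p ∈ S ↔ p ∈ Qs j ∧ X < p ^ n ∧ p ^ 2 ≤ X) → A ≤ ∑ p ∈ S, (1 : ℝ) / p := by
    intro j A
    refine tail99 (F := fun x => (PP M' x).filter fun p => jacobiSym (disc (q j)) p = 1 ∧
      ∀ k, k ≠ j → jacobiSym (disc (q k)) p = -1) (fun x => rfl) (Q := Qs j) ?_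
      (C := (C1 + 2 * C2 j + ∑ k, C2 k) / 4) ?_ A
    · intro x p
      unfold PP
      rw [Finset.mem_filter, Finset.mem_filter, Finset.mem_range]
      constructor
      · rintro ⟨⟨h4, h5, h6⟩, h7⟩
        exact ⟨⟨h5, h6, h7⟩, by omega⟩
      · rintro ⟨⟨h5, h6, h7⟩, h4⟩
        exact ⟨⟨by omega, h5, h6⟩, h7⟩
    · intro x hx
      have e1 : ∑ p ∈ (PP M' x).filter (fun p => jacobiSym (disc (q j)) p = 1 ∧
          ∀ k, k ≠ j → jacobiSym (disc (q k)) p = -1), (1 : ℝ) / p =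
          (∑ p ∈ PP M' x, (1 : ℝ) / p + 2 * ∑ p ∈ PP M' x, (jacobiSym (disc (q j)) p : ℝ) / p -
            ∑ k, ∑ p ∈ PP M' x, (jacobiSym (disc (q k)) p : ℝ) / p) / 4 := by
        rw [Finset.sum_filter, Finset.sum_comm, Finset.mul_sum, ← Finset.sum_add_distrib,
          ← Finset.sum_sub_distrib, Finset.sum_div]
        refine Finset.sum_congr rfl fun p hp => ?_
        obtain ⟨hp1, hp2, _⟩ := hPP x p hp
        obtain ⟨s1, s2⟩ := signs99 hsq hp1 (hg p hp1 hp2).2.1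
        have h := ind99 (e := fun i => jacobiSym (disc (q i)) p) s1 s2 j
        have h' : (if jacobiSym (disc (q j)) p = 1 ∧ ∀ k, k ≠ j → jacobiSym (disc (q k)) p = -1 then
            (1 : ℝ) / p else 0) = (if jacobiSym (disc (q j)) p = 1 ∧
              ∀ k, k ≠ j → jacobiSym (disc (q k)) p = -1 then (1 : ℝ) else 0) / p := by
          split_ifs <;> simp
        rw [h', h, ← Finset.sum_div]
        ring
      rw [e1]
      have a1 := abs_le.1 (hC1 x hx)
      have a2 := abs_le.1 (hC2 j x)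
      have a3 : |∑ k, ∑ p ∈ PP M' x, (jacobiSym (disc (q k)) p : ℝ) / p| ≤ ∑ k, C2 k :=
        (Finset.abs_sum_le_sum_abs _ _).trans (Finset.sum_le_sum fun k _ => hC2 k x)
      have a4 := abs_le.1 a3
      rw [abs_le]
      constructor <;> linarith [a1.1, a1.2, a2.1, a2.2, a4.1, a4.2]
  -- the constants
  set Bs : Finset (Fin 3 → ℤ) := Fintype.piFinset (fun _ : Fin 3 => Finset.Icc (-(M' : ℤ)) M') with hBs
  have hBpos : (0 : ℝ) < Bs.card := by
    have : Bs.Nonempty := ⟨fun _ => 0, by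
      rw [hBs, Fintype.mem_piFinset]; intro i; rw [Finset.mem_Icc]; constructor <;> simp⟩
    exact_mod_cast this.card_pos
  have hdiv : ∀ b : Fin 3 → ℤ, Tendsto (fun x : ℕ => ∑ p ∈ PP M' x, (1 - ((VV99 q b p).card : ℝ) / 4) / p)
      atTop atTop := by
    intro b
    have hlim : Tendsto (fun x : ℕ => (Real.log (Real.log x) - C1 - ∑ k, C2 k) / 4) atTop atTop := by
      refine Tendsto.atTop_div_const (by norm_num) ?_
      refine tendsto_atTop_add_const_right _ _ ?_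
      refine tendsto_atTop_add_const_right _ _ ?_
      exact Real.tendsto_log_atTop.comp (Real.tendsto_log_atTop.comp tendsto_natCast_atTop_atTop)
    refine tendsto_atTop_mono' _ ?_ hlim
    filter_upwards [eventually_ge_atTop 2] with x hx
    have e1 : (∑ p ∈ PP M' x, (1 : ℝ) / p -
        ∑ k, ∑ p ∈ PP M' x, (jacobiSym (disc (q k)) p : ℝ) / p) / 4 ≤
        ∑ p ∈ PP M' x, (1 - ((VV99 q b p).card : ℝ) / 4) / p := by
      rw [Finset.sum_comm, ← Finset.sum_sub_distrib, Finset.sum_div]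
      refine Finset.sum_le_sum fun p hp => ?_
      obtain ⟨hp1, hp2, _⟩ := hPP x p hp
      have hc := card_VVx99 b hdeg hp1 (hg p hp1 hp2).1 (hg p hp1 hp2).2.1
      have hc' : ((VV99 q b p).card : ℝ) ≤ ∑ i, (1 + (jacobiSym (disc (q i)) p : ℝ)) := by exact_mod_cast hc
      rw [Finset.sum_add_distrib] at hc'
      simp only [Finset.sum_const, Finset.card_univ, Fintype.card_fin, nsmul_eq_mul] at hc'
      rw [← Finset.sum_div, ← sub_div, div_div, mul_comm (p : ℝ) 4, ← div_div]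
      have hp0 : (0 : ℝ) < p := by exact_mod_cast hp1.pos
      refine (div_le_div_iff_of_pos_right hp0).2 ?_
      push_cast at hc'
      linarith
    have a1 := abs_le.1 (hC1 x hx)
    have a3 : |∑ k, ∑ p ∈ PP M' x, (jacobiSym (disc (q k)) p : ℝ) / p| ≤ ∑ k, C2 k :=
      (Finset.abs_sum_le_sum_abs _ _).trans (Finset.sum_le_sum fun k _ => hC2 k x)
    have a4 := abs_le.1 a3
    linarith [a1.1, a1.2, a4.1, a4.2]
  have hQ1 : ∀ b : Fin 3 → ℤ, ∀ j, ∀ p ∈ Qs j, p.Prime ∧ ¬ p ∣ M' ∧ ∀ o ∈ VV99 q b p, o.1 = j := by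
    rintro b j p ⟨hp1, hp2, hp3, hp4⟩
    refine ⟨hp1, hp2, fun o ho => ?_⟩
    by_contra hne
    obtain ⟨_, r, hr, _⟩ := mem_VVx99.1 ho
    have h := jac_one99 hp1 ((hg p hp1 hp2).2.1 o.1) (root_sq99 (hdeg o.1) hr)
    rw [hp4 o.1 hne] at h
    exact absurd h (by norm_num)
  have hcount : ∀ b ∈ Bs, ∀ᶠ X : ℕ in atTop, ∀ S : Finset ℕ,
      (∀ c ∈ S, 0 < c ∧ c ≤ X ∧ Squarefree c ∧ ABad M' (VV99 q b) c) → (S.card : ℝ) ≤ ε / Bs.card * X :=
    fun b _ => h1 M' hM' h2M (VV99 q b) (hdiv b) Qs (hQ1 b) hQsum (ε / Bs.card) (div_pos hε hBpos)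
  rw [← Filter.eventually_all_finset] at hcount
  filter_upwards [hcount] with X hX S hS
  have hsub : S ⊆ Bs.biUnion fun b => S.filter fun c => ABad M' (VV99 q b) c := by
    intro c hc
    obtain ⟨h4, _, _, h5⟩ := hS c hc
    obtain ⟨b, hb, hb'⟩ := abad99 hM' hMM (fun p hp hpM => (hg p hp hpM).2.2) h4.ne' h5
    exact Finset.mem_biUnion.2 ⟨b, hb, Finset.mem_filter.2 ⟨hc, hb'⟩⟩
  calc (S.card : ℝ) ≤ ((Bs.biUnion fun b => S.filter fun c => ABad M' (VV99 q b) c).card : ℝ) := by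
        exact_mod_cast Finset.card_le_card hsub
    _ ≤ ∑ b ∈ Bs, ((S.filter fun c => ABad M' (VV99 q b) c).card : ℝ) := by
        exact_mod_cast Finset.card_biUnion_le
    _ ≤ ∑ b ∈ Bs, ε / Bs.card * X := by
        refine Finset.sum_le_sum fun b hb => hX b hb _ fun c hc => ?_
        rw [Finset.mem_filter] at hc
        obtain ⟨h4, h5, h6, _⟩ := hS c hc.1
        exact ⟨h4, h5, h6, hc.2⟩
    _ = ε * X := by
        rw [Finset.sum_const, nsmul_eq_mul]
        field_simp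

end Pool.Agent.HP
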