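import Pool.Agent.Helper45.HP.Defs
import Pool.Agent.Helper53.SCD.Final2

/-!
# Final assembly of project HP
-/

set_option autoImplicit false

namespace Pool.Agent.HP

open Polynomial Filter Topology NumberField Pool.Agent.Helper91.Sect

/-! ### density -/

private theorem dens99 {B : ℕ → Prop} (hB0 : ∀ a, B a → 0 < a)
    (hB : ∀ ε : ℝ, 0 < ε → ∀ᶠ X : ℕ in atTop, ∀ S : Finset ℕ, (∀ c ∈ S, c ≤ X ∧ B c) →
      (S.card : ℝ) ≤ ε * X) (ε : ℝ) (hε : 0 < ε) :
    ∀ᶠ Y : ℕ in atTop, ∀ S : Finset ℕ, (∀ n ∈ S, 0 < n ∧ n ≤ Y ∧ ∃ a t, n = a * t ^ 2 ∧ B a) →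
      (S.card : ℝ) ≤ ε * Y := by
  classical
  obtain ⟨T, hT⟩ := exists_nat_gt (2 / ε)
  have hTpos : (0 : ℝ) < T := lt_trans (by positivity) hT
  have hT0 : 0 < T := by exact_mod_cast hTpos
  have hε' : 0 < ε / (2 * T) := by positivity
  obtain ⟨X0, hX0⟩ := eventually_atTop.1 (hB (ε / (2 * T)) hε')
  filter_upwards [eventually_ge_atTop (X0 * T ^ 2), eventually_ge_atTop T] with Y hY hYT S hS
  set St : ℕ → Finset ℕ := fun t => S.filter fun n => ∃ a, n = a * t ^ 2 ∧ B a with hSt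
  have hsub : S ⊆ (Finset.Icc 1 T ∪ Finset.Ioc T Y).biUnion St := by
    intro n hn
    obtain ⟨h1, h2, a, t, h3, h4⟩ := hS n hn
    have ht : t ≠ 0 := by rintro rfl; simp at h3; omega
    have hty : t ≤ Y := by
      have ha := hB0 a h4
      nlinarith [Nat.pos_of_ne_zero ht]
    rw [Finset.mem_biUnion]
    refine ⟨t, ?_, Finset.mem_filter.2 ⟨hn, a, h3, h4⟩⟩
    rw [Finset.mem_union, Finset.mem_Icc, Finset.mem_Ioc]
    omega
  have hcard : ∀ t, 0 < t → ∃ R : Finset ℕ, (St t).card = R.card ∧ ∀ a ∈ R, a ≤ Y / t ^ 2 ∧ B a := by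
    intro t ht
    refine ⟨(St t).image fun n => n / t ^ 2, ?_, ?_⟩
    · rw [Finset.card_image_of_injOn]
      intro n hn m hm hnm
      rw [Finset.mem_coe, hSt, Finset.mem_filter] at hn hm
      obtain ⟨-, a, ha, -⟩ := hn
      obtain ⟨-, b, hb, -⟩ := hm
      have hnm' : n / t ^ 2 = m / t ^ 2 := hnm
      rw [ha, hb, Nat.mul_div_cancel _ (by positivity), Nat.mul_div_cancel _ (by positivity)] at hnm'
      rw [ha, hb, hnm']
    · intro a ha
      rw [Finset.mem_image] at ha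
      obtain ⟨n, hn, rfl⟩ := ha
      rw [hSt, Finset.mem_filter] at hn
      obtain ⟨hn1, b, hb, hb'⟩ := hn
      refine ⟨Nat.div_le_div_right (hS n hn1).2.1, ?_⟩
      rw [hb, Nat.mul_div_cancel _ (by positivity)]
      exact hb'
  have hY0 : (0 : ℝ) ≤ Y := by positivity
  have h1 : ∑ t ∈ Finset.Icc 1 T, ((St t).card : ℝ) ≤ ε / 2 * Y := by
    calc ∑ t ∈ Finset.Icc 1 T, ((St t).card : ℝ) ≤ ∑ t ∈ Finset.Icc 1 T, ε / (2 * T) * Y := by
          refine Finset.sum_le_sum fun t ht => ?_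
          rw [Finset.mem_Icc] at ht
          obtain ⟨R, hR, hR'⟩ := hcard t (by omega)
          have h2 : X0 ≤ Y / t ^ 2 := by
            rw [Nat.le_div_iff_mul_le (by have := ht.1; positivity)]
            exact le_trans (Nat.mul_le_mul_left _ (Nat.pow_le_pow_left ht.2 2)) hY
          have h3 := hX0 _ h2 R hR'
          rw [hR]
          refine h3.trans (mul_le_mul_of_nonneg_left ?_ hε'.le)
          exact_mod_cast Nat.div_le_self _ _
      _ = ε / 2 * Y := by
          rw [Finset.sum_const, Nat.card_Icc, nsmul_eq_mul, Nat.add_sub_cancel]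
          field_simp
  have h2 : ∑ t ∈ Finset.Ioc T Y, ((St t).card : ℝ) ≤ ε / 2 * Y := by
    calc ∑ t ∈ Finset.Ioc T Y, ((St t).card : ℝ) ≤ ∑ t ∈ Finset.Ioc T Y, (Y : ℝ) * ((t : ℝ) ^ 2)⁻¹ := by
          refine Finset.sum_le_sum fun t ht => ?_
          rw [Finset.mem_Ioc] at ht
          have ht0 : 0 < t := by omega
          obtain ⟨R, hR, hR'⟩ := hcard t ht0
          have h3 : R ⊆ Finset.Icc 1 (Y / t ^ 2) := by
            intro a ha
            rw [Finset.mem_Icc]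
            exact ⟨hB0 a (hR' a ha).2, (hR' a ha).1⟩
          have h4 := Finset.card_le_card h3
          rw [Nat.card_Icc, Nat.add_sub_cancel] at h4
          rw [hR]
          calc (R.card : ℝ) ≤ ((Y / t ^ 2 : ℕ) : ℝ) := by exact_mod_cast h4
            _ ≤ (Y : ℝ) / ((t ^ 2 : ℕ) : ℝ) := Nat.cast_div_le
            _ = _ := by push_cast; rw [div_eq_mul_inv]
      _ = Y * ∑ t ∈ Finset.Ioc T Y, ((t : ℝ) ^ 2)⁻¹ := by rw [Finset.mul_sum]
      _ ≤ Y * (T : ℝ)⁻¹ := by
          refine mul_le_mul_of_nonneg_left ?_ hY0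
          have := sum_Ioc_inv_sq_le_sub (α := ℝ) hT0.ne' hYT
          have h5 : (0 : ℝ) ≤ (Y : ℝ)⁻¹ := by positivity
          linarith
      _ ≤ ε / 2 * Y := by
          rw [mul_comm]
          refine mul_le_mul_of_nonneg_right ?_ hY0
          rw [inv_le_comm₀ hTpos (by positivity)]
          rw [inv_div]; exact hT.le
  calc (S.card : ℝ) ≤ (((Finset.Icc 1 T ∪ Finset.Ioc T Y).biUnion St).card : ℝ) := by
        exact_mod_cast Finset.card_le_card hsub
    _ ≤ ∑ t ∈ Finset.Icc 1 T ∪ Finset.Ioc T Y, ((St t).card : ℝ) := by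
        exact_mod_cast Finset.card_biUnion_le
    _ = ∑ t ∈ Finset.Icc 1 T, ((St t).card : ℝ) + ∑ t ∈ Finset.Ioc T Y, ((St t).card : ℝ) := by
        rw [Finset.sum_union]
        rw [Finset.disjoint_left]
        intro a ha hb
        rw [Finset.mem_Icc] at ha
        rw [Finset.mem_Ioc] at hb
        omega
    _ ≤ ε / 2 * Y + ε / 2 * Y := add_le_add h1 h2
    _ = ε * Y := by ring

/-! ### transformations -/

private theorem bad_congr99 {q : Fin 3 → ℤ[X]} {M : ℕ} {c d : ℤ} (h : c.natAbs = d.natAbs) (hb : Bad q M c) :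
    Bad q M d := by
  have e : ∀ p : ℕ, (p : ℤ) ∣ c ↔ (p : ℤ) ∣ d := fun p => by
    rw [Int.natCast_dvd, Int.natCast_dvd, h]
  obtain ⟨D, h1, h2, h3⟩ := hb
  refine ⟨D, h1, fun i p hp hpD => ?_, fun p hp hpM hpc => h3 p hp hpM ((e p).2 hpc)⟩
  rcases h2 i p hp hpD with h4 | h4
  · exact Or.inl ((e p).1 h4)
  · exact Or.inr h4

/-- scaling of the constant -/
private theorem section_scale99 {f g : ℤ[X]} {κ : ℚ}
    (hfg : f.map (Int.castRingHom ℚ) = C κ * g.map (Int.castRingHom ℚ)) {c s : ℤ} {r : ℚ}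
    (hc : (c : ℚ) * κ * r ^ 2 = s) (h : HasSection f c) : HasSection g s := by
  obtain ⟨K, hK, hA, x, y, hx, hy, hs⟩ := h
  refine ⟨K, hK, hA, x, algebraMap ℚ K r * y, hx, ?_, hs⟩
  have e1 : aeval x f = algebraMap ℚ K κ * aeval x g := by
    have h1 : aeval x (f.map (Int.castRingHom ℚ)) = aeval x f := aeval_map_algebraMap ℚ x f
    have h2 : aeval x (g.map (Int.castRingHom ℚ)) = aeval x g := aeval_map_algebraMap ℚ x g
    rw [← h1, hfg, map_mul, aeval_C, h2]
  have e2 : ((s : ℤ) : K) = (c : K) * algebraMap ℚ K κ * algebraMap ℚ K r ^ 2 := by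
    have := congrArg (algebraMap ℚ K) hc
    rw [map_mul, map_mul, map_pow, map_intCast, map_intCast] at this
    exact this.symm
  rw [e2, mul_pow, hy, e1]
  ring

private theorem card_int99 {E : ℤ → Prop} {N W : ℕ} (hW : 0 < W) {P : ℕ → Prop} {ε : ℝ}
    (h : ∀ c : ℤ, c ≠ 0 → E c → P (c.natAbs * W))
    (hP : ∀ S : Finset ℕ, (∀ n ∈ S, 0 < n ∧ n ≤ N * W ∧ P n) → (S.card : ℝ) ≤ ε * (N * W : ℕ)) :
    (Nat.card {c : ℤ // |c| ≤ N ∧ E c} : ℝ) ≤ 2 * (ε * (N * W : ℕ) + 1) := by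
  classical
  set S : Finset ℕ := (Finset.Icc 1 (N * W)).filter P with hS
  have hSc := hP S (fun n hn => by
    rw [hS, Finset.mem_filter, Finset.mem_Icc] at hn
    exact ⟨by omega, hn.1.2, hn.2⟩)
  have h1 : Nat.card {c : ℤ // |c| ≤ N ∧ E c} ≤ Nat.card (Bool × (insert 0 S : Finset ℕ)) := by
    refine Nat.card_le_card_of_injective
      (fun c : {c : ℤ // |c| ≤ N ∧ E c} => ((decide (0 ≤ c.1), ⟨c.1.natAbs * W, ?_⟩) :
        Bool × (insert 0 S : Finset ℕ))) ?_
    · rw [Finset.mem_insert]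
      by_cases hc : c.1 = 0
      · left; rw [hc]; simp
      · right
        have h2 := h c.1 hc c.2.2
        have h3 := c.2.1
        rw [Int.abs_eq_natAbs] at h3
        have h4 : c.1.natAbs ≤ N := by exact_mod_cast h3
        rw [hS, Finset.mem_filter, Finset.mem_Icc]
        refine ⟨⟨Nat.mul_pos (Int.natAbs_pos.2 hc) hW, Nat.mul_le_mul_right _ h4⟩, h2⟩
    · rintro ⟨a, ha⟩ ⟨b, hb⟩ hab
      have h2 := congrArg Prod.fst hab
      have h3 := congrArg (fun z => (Prod.snd z : (insert 0 S : Finset ℕ)).1) hab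
      apply Subtype.ext
      simp only [decide_eq_decide] at h2
      dsimp only at h3 ⊢
      have h4 : a.natAbs = b.natAbs := Nat.eq_of_mul_eq_mul_right hW h3
      omega
  have e3 : Nat.card (insert 0 S : Finset ℕ) = (insert 0 S).card := by
    rw [Nat.card_eq_fintype_card, Fintype.card_coe]
  rw [Nat.card_prod, Nat.card_eq_fintype_card (α := Bool), Fintype.card_bool, e3] at h1
  have h2 := Finset.card_insert_le 0 S
  calc (Nat.card {c : ℤ // |c| ≤ N ∧ E c} : ℝ) ≤ ((2 * (insert 0 S).card : ℕ) : ℝ) := by exact_mod_cast h1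
    _ ≤ ((2 * (S.card + 1) : ℕ) : ℝ) := by exact_mod_cast Nat.mul_le_mul_left 2 h2
    _ ≤ _ := by push_cast at hSc ⊢; linarith

/-- Case 2: `f` is a product of three quadratic polynomials. -/
private theorem case_two99 (hA : StmtA) (hB : StmtB) {f : ℤ[X]} (hsep : (f.map (Int.castRingHom ℚ)).Separable)
    {q : Fin 3 → ℤ[X]} (hdeg : ∀ i, (q i).natDegree = 2) (hns : ∀ i, ¬ IsSquare (disc (q i)))
    (hsq : IsSquare (∏ i, disc (q i))) {κ : ℚ} (hκ : κ ≠ 0)
    (hf : f.map (Int.castRingHom ℚ) = C κ * (∏ i, q i).map (Int.castRingHom ℚ)) :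
    Tendsto (fun N : ℕ => (Nat.card {c : ℤ // |c| ≤ N ∧ HasSection f c} : ℝ) / N) atTop (𝓝 0) := by
  have hsep' : ((∏ i, q i).map (Int.castRingHom ℚ)).Separable := by
    rw [hf] at hsep; exact hsep.of_mul_right
  obtain ⟨M, hM, hMb⟩ := hA q hdeg hsep'
  set B : ℕ → Prop := fun a => 0 < a ∧ Squarefree a ∧ Bad q M (a : ℤ) with hBdef
  have hBd : ∀ ε : ℝ, 0 < ε → ∀ᶠ X : ℕ in atTop, ∀ S : Finset ℕ, (∀ c ∈ S, c ≤ X ∧ B c) →
      (S.card : ℝ) ≤ ε * X := by
    intro ε hε
    filter_upwards [hB q hdeg hsep' hns hsq M hM ε hε] with X hX S hS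
    exact hX S fun c hc => ⟨(hS c hc).2.1, (hS c hc).1, (hS c hc).2.2.1, (hS c hc).2.2.2⟩
  have hdens := dens99 (fun a ha => ha.1) hBd
  -- the constant
  set w : ℤ := κ.num * κ.den with hw
  have hw0 : w ≠ 0 := mul_ne_zero (Rat.num_ne_zero.2 hκ) (by exact_mod_cast κ.den_ne_zero)
  set W := w.natAbs with hWdef
  have hW : 0 < W := Int.natAbs_pos.2 hw0
  have hred : ∀ c : ℤ, c ≠ 0 → HasSection f c → ∃ a t, c.natAbs * W = a * t ^ 2 ∧ B a := by
    intro c hc hcs
    obtain ⟨a, t, hat, hasq⟩ := Nat.sq_mul_squarefree (c * w).natAbs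
    have hcw : c * w ≠ 0 := mul_ne_zero hc hw0
    have ha0 : a ≠ 0 := hasq.ne_zero
    have ht0 : t ≠ 0 := by
      rintro rfl
      apply hcw
      rw [← Int.natAbs_eq_zero, ← hat]; simp
    obtain ⟨s, hs, hsa⟩ : ∃ s : ℤ, c * w = s * t ^ 2 ∧ s.natAbs = a := by
      rcases Int.natAbs_eq (c * w) with h | h
      · exact ⟨a, by rw [h, ← hat]; push_cast; ring, by simp⟩
      · exact ⟨-a, by rw [h, ← hat]; push_cast; ring, by simp⟩
    have hq : HasSection (∏ i, q i) s := by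
      refine section_scale99 (r := κ.den / t) hf ?_ hcs
      have h1 : (c : ℚ) * w = s * t ^ 2 := by exact_mod_cast hs
      have h2 : (w : ℚ) = κ * κ.den ^ 2 := by
        rw [hw]; push_cast
        have := Rat.num_div_den κ
        have h3 : (κ.den : ℚ) ≠ 0 := by exact_mod_cast κ.den_ne_zero
        rw [div_eq_iff h3] at this
        rw [this]; ring
      have h4 : (t : ℚ) ≠ 0 := by exact_mod_cast ht0
      rw [h2] at h1
      field_simp
      linarith
    have hb := hMb s (by rw [← Int.squarefree_natAbs, hsa]; exact hasq) hq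
    refine ⟨a, t, ?_, Nat.pos_of_ne_zero ha0, hasq, bad_congr99 (by rw [hsa]; simp) hb⟩
    rw [hWdef, ← Int.natAbs_mul, ← hat]; ring
  rw [Metric.tendsto_atTop]
  intro ε hε
  have hWr : (0 : ℝ) < W := by exact_mod_cast hW
  obtain ⟨Y0, hY0⟩ := eventually_atTop.1 (hdens (ε / (8 * W)) (by positivity))
  obtain ⟨N1, hN1⟩ := exists_nat_gt (8 / ε)
  refine ⟨max Y0 (N1 + 1), fun N hN => ?_⟩
  have hN0 : Y0 ≤ N := (le_max_left _ _).trans hN
  have hN2 : N1 + 1 ≤ N := (le_max_right _ _).trans hN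
  have h1 := card_int99 (E := HasSection f) (N := N) hW
    (P := fun n => ∃ a t, n = a * t ^ 2 ∧ B a) hred (ε := ε / (8 * W))
    (hY0 (N * W) (hN0.trans (Nat.le_mul_of_pos_right _ hW)))
  have hNr : (0 : ℝ) < N := by exact_mod_cast (by omega : 0 < N)
  have hN3 : 8 / ε < N := hN1.trans (by exact_mod_cast (by omega : N1 < N))
  rw [Real.dist_eq, sub_zero, abs_of_nonneg (by positivity), div_lt_iff₀ hNr]
  refine lt_of_le_of_lt h1 ?_
  have e : ε / (8 * W) * ((N * W : ℕ) : ℝ) = ε * N / 8 := by push_cast; field_simp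
  rw [e]
  rw [div_lt_iff₀ hε] at hN3
  linarith

/-! ### the locally obstructed case -/

/-- `AlmostAllTwists` (helper53). -/
private theorem tw99 {k : Type} [Field k] [NumberField k] (n : ℕ) (f : (𝓞 k)[X])
    (hsep : (f.map (algebraMap (𝓞 k) k)).Separable) (hdeg : 3 ≤ f.natDegree)
    (hn : ¬ n.Coprime f.natDegree)
    -- `f` has no root modulo infinitely many primes
    (hroot : {P : Ideal (𝓞 k) | P.IsMaximal ∧ ∀ a : 𝓞 k, f.eval a ∉ P}.Infinite) :
    ∃ δ : ℝ, 0 < δ ∧ ∃ C : ℝ, ∀ X : ℕ, 2 ≤ X →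
      (Nat.card {c : ℤ | |c| ≤ X ∧
        -- some curve with function field `K` maps onto `c yⁿ = f(x)` and has a Galois section
        ∃ (K : Type) (_ : Field K) (_ : Algebra k K) (x y : K), Transcendental k x ∧
          (c : K) * y ^ n = aeval x (f.map (algebraMap (𝓞 k) k)) ∧
          Nonempty (GaloisSection k K)} : ℝ) ≤ C * X / Real.log X ^ δ := by
  classical
  obtain ⟨ℓ, hℓ, hℓn, hℓd⟩ := Nat.Prime.not_coprime_iff_dvd.1 hn
  have hf0 : f ≠ 0 := by
    rintro rfl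
    simp at hdeg
  obtain ⟨m, hm0, hm⟩ := H53SCD.exists_sep_bad f hsep
  have hb0 : Ideal.absNorm (Ideal.span {f.leadingCoeff}) ≠ 0 := by
    rw [Ne, Ideal.absNorm_eq_zero_iff, Ideal.span_singleton_eq_bot]
    exact leadingCoeff_ne_zero.2 hf0
  obtain ⟨δ, C₀, hδ, hS⟩ := H53SCD.exists_data f hdeg hroot
    ((discr k).natAbs * ℓ * m * Ideal.absNorm (Ideal.span {f.leadingCoeff}))
    (mul_ne_zero (mul_ne_zero (mul_ne_zero (Int.natAbs_ne_zero.2 (discr_ne_zero k)) hℓ.ne_zero) hm0)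
      hb0)
  set S := H53SCD.SS k (integralNormalization f)
    ((discr k).natAbs * ℓ * m * Ideal.absNorm (Ideal.span {f.leadingCoeff})) with hSdef
  obtain ⟨C, hC⟩ := H53SCD.sieve_bound S δ C₀ hδ hS
  refine ⟨δ, hδ, 2 * C, fun X hX => ?_⟩
  set T := {c : ℕ | 0 < c ∧ c ≤ X ∧ ∀ p ∈ S, p.Prime → ¬ (p ∣ c ∧ ¬ p ^ 2 ∣ c)} with hT
  set E := {c : ℤ | |c| ≤ X ∧ ∃ (K : Type) (_ : Field K) (_ : Algebra k K) (x y : K),
    Transcendental k x ∧ (c : K) * y ^ n = aeval x (f.map (algebraMap (𝓞 k) k)) ∧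
      Nonempty (GaloisSection k K)} with hE
  have hTfin : T.Finite := (Set.finite_Icc 0 X).subset fun c hc => ⟨Nat.zero_le _, hc.2.1⟩
  have hTF : Finite T := hTfin
  have key : ∀ c ∈ E, c.natAbs ∈ T := by
    rintro c ⟨hcX, K, hKf, hKa, x, y, hx, hxy, ⟨s⟩⟩
    have hc0 : c ≠ 0 := by
      rintro rfl
      rw [Int.cast_zero, zero_mul] at hxy
      apply hx
      refine ⟨f.map (algebraMap (𝓞 k) k), ?_, hxy.symm⟩
      rw [Ne, Polynomial.map_eq_zero_iff RingOfIntegers.coe_injective]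
      exact hf0
    refine ⟨Int.natAbs_pos.2 hc0, by
      rw [Int.abs_eq_natAbs] at hcX
      exact_mod_cast hcX, ?_⟩
    rintro p hpS hp ⟨h1, h2⟩
    obtain ⟨-, hpbad, ψ, hψ⟩ := hpS
    have hpf : Fact p.Prime := ⟨hp⟩
    have hp1 : ¬ p ∣ (discr k).natAbs := fun h =>
      hpbad (((h.mul_right _).mul_right _).mul_right _)
    have hp2 : ¬ p ∣ ℓ := fun h => hpbad (((h.mul_left _).mul_right _).mul_right _)
    have hp3 : ¬ p ∣ m := fun h => hpbad ((h.mul_left _).mul_right _)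
    have hp4 : ¬ p ∣ Ideal.absNorm (Ideal.span {f.leadingCoeff}) := fun h =>
      hpbad (h.mul_left _)
    have hlc : ψ f.leadingCoeff ≠ 0 := by
      intro h
      apply hp4
      have h3 : Ideal.span {f.leadingCoeff} ≤ RingHom.ker ψ := by
        rw [Ideal.span_le, Set.singleton_subset_iff]
        exact h
      have h4 := Ideal.absNorm_dvd_absNorm_of_le h3
      rwa [H53SCD.absNorm_ker] at h4
    have hroot' : ∀ a, (f.map ψ).eval a ≠ 0 := by
      intro a ha
      rw [eval_map] at ha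
      have h3 := integralNormalization_eval₂_leadingCoeff_mul (show 1 ≤ f.natDegree by omega) ψ a
      rw [ha, mul_zero, ← eval_map] at h3
      exact hψ _ h3
    have hy : (c : K) * (y ^ (n / ℓ)) ^ ℓ = aeval x (f.map (algebraMap (𝓞 k) k)) := by
      rw [← pow_mul, Nat.div_mul_cancel hℓn, hxy]
    exact H53SCD.no_section k p ψ hp1 hℓ hp2 f hlc (hm p hp3 ψ) hℓd hdeg hroot' c
      (Int.natCast_dvd.2 h1) (by
        intro h
        apply h2
        have h3 : ((p ^ 2 : ℕ) : ℤ) ∣ c := by exact_mod_cast h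
        exact Int.natCast_dvd.1 h3) x (y ^ (n / ℓ)) hx hy s
  have hcard : Nat.card E ≤ 2 * Nat.card T := by
    have h1 : Nat.card E ≤ Nat.card (Bool × T) := by
      refine Nat.card_le_card_of_injective
        (fun c : E => ((decide (0 ≤ c.1), ⟨c.1.natAbs, key c.1 c.2⟩) : Bool × T)) ?_
      rintro ⟨a, ha⟩ ⟨b, hb⟩ hab
      have h2 := congrArg Prod.fst hab
      have h3 := congrArg (fun z => (Prod.snd z : T).1) hab
      apply Subtype.ext
      simp only [decide_eq_decide] at h2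
      dsimp only at h3 ⊢
      omega
    rw [Nat.card_prod, Nat.card_eq_fintype_card (α := Bool), Fintype.card_bool] at h1
    exact h1
  calc (Nat.card E : ℝ) ≤ 2 * (Nat.card T : ℝ) := by exact_mod_cast hcard
    _ ≤ 2 * (C * X / Real.log X ^ δ) := by
        have := hC X hX
        linarith
    _ = 2 * C * X / Real.log X ^ δ := by ring


private theorem log_pos99 {δ C₀ : ℝ} (hδ : 0 < δ) {F : ℝ → ℝ}
    (h : ∀ᶠ s in 𝓝[>] (1 : ℝ), δ * Real.log (1 / (s - 1)) - C₀ ≤ F s) :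
    ∃ s : ℝ, 1 < s ∧ 0 < F s := by
  have h1 : ∀ᶠ s in 𝓝[>] (1 : ℝ), s < 1 + Real.exp (-((C₀ + 1) / δ)) :=
    nhdsWithin_le_nhds (Iio_mem_nhds (by linarith [Real.exp_pos (-((C₀ + 1) / δ))]))
  obtain ⟨s, hs1, hs2, hs3⟩ := (h.and (h1.and self_mem_nhdsWithin)).exists
  have hs3' : 1 < s := hs3
  refine ⟨s, hs3', lt_of_lt_of_le ?_ hs1⟩
  have h2 : (C₀ + 1) / δ < Real.log (1 / (s - 1)) := by
    rw [one_div, Real.log_inv, lt_neg, Real.log_lt_iff_lt_exp (by linarith)]
    linarith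
  rw [div_lt_iff₀ hδ] at h2
  linarith

private theorem inf99 {f : (𝓞 ℚ)[X]} (hdeg : 1 ≤ f.natDegree) (L : Type) [Field L] [NumberField L]
    [Algebra ℚ L] [IsGalois ℚ L]
    (hs : (((integralNormalization f).map (algebraMap (𝓞 ℚ) ℚ)).map (algebraMap ℚ L)).Splits)
    (hfree : ∃ g : L ≃ₐ[ℚ] L, ∀ ω : H53SCD.Om L (integralNormalization f), g • ω ≠ ω) :
    {P : Ideal (𝓞 ℚ) | P.IsMaximal ∧ ∀ a : 𝓞 ℚ, f.eval a ∉ P}.Infinite := by
  classical
  intro hfin
  have hf0 : f ≠ 0 := by rintro rfl; simp at hdeg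
  have hm : (integralNormalization f).Monic := monic_integralNormalization hf0
  have hb0 : Ideal.absNorm (Ideal.span {f.leadingCoeff}) ≠ 0 := by
    rw [Ne, Ideal.absNorm_eq_zero_iff, Ideal.span_singleton_eq_bot]
    exact leadingCoeff_ne_zero.2 hf0
  set bad : ℕ := Ideal.absNorm (Ideal.span {f.leadingCoeff}) * ∏ P ∈ hfin.toFinset, Ideal.absNorm P with hbad
  have hbad0 : bad ≠ 0 := by
    refine mul_ne_zero hb0 (Finset.prod_ne_zero_iff.2 fun P hP => ?_)
    rw [Set.Finite.mem_toFinset] at hP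
    rw [Ne, Ideal.absNorm_eq_zero_iff]
    rintro rfl
    exact RingOfIntegers.not_isField ℚ (Ring.isField_iff_maximal_bot.2 hP.1)
  obtain ⟨δ, C₀, hδ, hS⟩ := H53SCD.SS_bound L (integralNormalization f) hm hs hfree bad hbad0
  obtain ⟨s, _, hs2⟩ := log_pos99 hδ hS
  have hne : ∃ p : Nat.Primes, (p : ℕ) ∈ H53SCD.SS ℚ (integralNormalization f) bad := by
    by_contra hno
    push Not at hno
    have : ∑' p : Nat.Primes, Set.indicator (H53SCD.SS ℚ (integralNormalization f) bad)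
        (fun m : ℕ => (m : ℝ) ^ (-s)) (p : ℕ) = 0 := by
      rw [tsum_congr fun p => Set.indicator_of_notMem (hno p) _, tsum_zero]
    linarith
  obtain ⟨p, hp, hpbad, ψ, hψ⟩ := hne
  have := Fact.mk hp
  have hp4 : ¬ (p : ℕ) ∣ Ideal.absNorm (Ideal.span {f.leadingCoeff}) := fun h =>
    hpbad (h.mul_right _)
  have hlc : ψ f.leadingCoeff ≠ 0 := by
    intro h
    apply hp4
    have h3 : Ideal.span {f.leadingCoeff} ≤ RingHom.ker ψ := by
      rw [Ideal.span_le, Set.singleton_subset_iff]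
      exact h
    have h4 := Ideal.absNorm_dvd_absNorm_of_le h3
    rwa [H53SCD.absNorm_ker] at h4
  have hroot' : ∀ a, (f.map ψ).eval a ≠ 0 := by
    intro a ha
    rw [eval_map] at ha
    have h3 := integralNormalization_eval₂_leadingCoeff_mul hdeg ψ a
    rw [ha, mul_zero, ← eval_map] at h3
    exact hψ _ h3
  have hmem : RingHom.ker ψ ∈ hfin.toFinset := by
    rw [Set.Finite.mem_toFinset]
    refine ⟨RingHom.ker_isMaximal_of_surjective ψ (ZMod.ringHom_surjective ψ), fun a ha => ?_⟩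
    rw [RingHom.mem_ker] at ha
    apply hroot' (ψ a)
    rw [eval_map, eval₂_at_apply, ha]
  apply hpbad
  have h5 : Ideal.absNorm (RingHom.ker ψ) ∣ ∏ P ∈ hfin.toFinset, Ideal.absNorm P :=
    Finset.dvd_prod_of_mem _ hmem
  rw [H53SCD.absNorm_ker] at h5
  exact h5.mul_left _

private theorem case_one99 {f : ℤ[X]} (hdeg : f.natDegree = 6)
    (hsep : ((f.map (algebraMap ℤ (𝓞 ℚ))).map (algebraMap (𝓞 ℚ) ℚ)).Separable)
    (hroot : {P : Ideal (𝓞 ℚ) | P.IsMaximal ∧ ∀ a : 𝓞 ℚ,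
      (f.map (algebraMap ℤ (𝓞 ℚ))).eval a ∉ P}.Infinite) :
    Tendsto (fun N : ℕ => (Nat.card {c : ℤ // |c| ≤ N ∧ HasSection f c} : ℝ) / N) atTop (𝓝 0) := by
  classical
  have hdeg' : (f.map (algebraMap ℤ (𝓞 ℚ))).natDegree = 6 := by
    rw [natDegree_map_eq_of_injective (FaithfulSMul.algebraMap_injective ℤ (𝓞 ℚ)), hdeg]
  obtain ⟨δ, hδ, C₁, hC₁⟩ := tw99 2 (f.map (algebraMap ℤ (𝓞 ℚ))) hsep (by omega)
    (by rw [hdeg']; decide) hroot
  have hbound : ∀ X : ℕ, 2 ≤ X → (Nat.card {c : ℤ // |c| ≤ X ∧ HasSection f c} : ℝ) ≤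
      1 + C₁ * X / Real.log X ^ δ := by
    intro X hX
    set E := {c : ℤ | |c| ≤ X ∧ ∃ (K : Type) (_ : Field K) (_ : Algebra ℚ K) (x y : K),
      Transcendental ℚ x ∧
        (c : K) * y ^ 2 = aeval x ((f.map (algebraMap ℤ (𝓞 ℚ))).map (algebraMap (𝓞 ℚ) ℚ)) ∧
      Nonempty (GaloisSection ℚ K)} with hE
    have hfin : E.Finite := (Set.finite_Icc (-(X : ℤ)) X).subset fun c hc => by
      rw [Set.mem_Icc, ← abs_le]; exact hc.1
    have hsub : {c : ℤ | |c| ≤ X ∧ HasSection f c} ⊆ insert 0 E := by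
      rintro c ⟨h1, K, hK, hA, x, y, hx, hy, hs⟩
      by_cases hc : c = 0
      · exact Set.mem_insert_iff.2 (Or.inl hc)
      · refine Set.mem_insert_iff.2 (Or.inr ⟨h1, K, hK, hA, x, y / c, hx, ?_, hs⟩)
        have hchar : CharZero K := charZero_of_injective_algebraMap (algebraMap ℚ K).injective
        have hc' : (c : K) ≠ 0 := by exact_mod_cast hc
        have e : aeval x ((f.map (algebraMap ℤ (𝓞 ℚ))).map (algebraMap (𝓞 ℚ) ℚ)) = aeval x f := by
          rw [Polynomial.map_map, ← IsScalarTower.algebraMap_eq ℤ (𝓞 ℚ) ℚ, aeval_map_algebraMap]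
        rw [e, div_pow, hy]
        field_simp
    have h1 : Nat.card {c : ℤ // |c| ≤ X ∧ HasSection f c} ≤ Nat.card E + 1 := by
      have h2 := Set.ncard_le_ncard hsub (hfin.insert 0)
      have h3 := Set.ncard_insert_le 0 E
      exact h2.trans h3
    have h2 := hC₁ X hX
    calc (Nat.card {c : ℤ // |c| ≤ X ∧ HasSection f c} : ℝ) ≤ ((Nat.card E + 1 : ℕ) : ℝ) := by
          exact_mod_cast h1
      _ ≤ _ := by push_cast; linarith
  have hlim : Tendsto (fun N : ℕ => (1 : ℝ) / N + C₁ / Real.log N ^ δ) atTop (𝓝 0) := by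
    have h1 : Tendsto (fun N : ℕ => (1 : ℝ) / N) atTop (𝓝 0) := tendsto_one_div_atTop_nhds_zero_nat
    have h2 : Tendsto (fun N : ℕ => C₁ / Real.log N ^ δ) atTop (𝓝 0) :=
      Tendsto.div_atTop tendsto_const_nhds ((tendsto_rpow_atTop hδ).comp
        (Real.tendsto_log_atTop.comp tendsto_natCast_atTop_atTop))
    simpa using h1.add h2
  refine tendsto_of_tendsto_of_tendsto_of_le_of_le' tendsto_const_nhds hlim
    (Eventually.of_forall fun N => by positivity) ?_
  filter_upwards [eventually_ge_atTop 2] with N hN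
  have hNr : (0 : ℝ) < N := by exact_mod_cast (by omega : 0 < N)
  rw [div_le_iff₀ hNr]
  refine (hbound N hN).trans (le_of_eq ?_)
  field_simp

private theorem case_two_split99 {f : (𝓞 ℚ)[X]} (hdeg : 1 ≤ f.natDegree) (L : Type) [Field L] [NumberField L]
    [Algebra ℚ L]
    (hs : (((integralNormalization f).map (algebraMap (𝓞 ℚ) ℚ)).map (algebraMap ℚ L)).Splits)
    (hfix : ∀ g : L ≃ₐ[ℚ] L, ∃ ω : H53SCD.Om L (integralNormalization f), g • ω = ω) :
    ((f.map (algebraMap (𝓞 ℚ) ℚ)).map (algebraMap ℚ L)).Splits ∧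
      ∀ g : L ≃ₐ[ℚ] L, ∃ r : L, aeval r (f.map (algebraMap (𝓞 ℚ) ℚ)) = 0 ∧ g r = r := by
  have hf0 : f ≠ 0 := by rintro rfl; simp at hdeg
  set φ : 𝓞 ℚ →+* L := (algebraMap ℚ L).comp (algebraMap (𝓞 ℚ) ℚ) with hφ
  have hinj : Function.Injective φ := by
    rw [hφ, RingHom.coe_comp]
    exact (algebraMap ℚ L).injective.comp RingOfIntegers.coe_injective
  set l : L := φ f.leadingCoeff with hl
  have hl0 : l ≠ 0 := by
    rw [hl, Ne, map_eq_zero_iff φ hinj]
    exact leadingCoeff_ne_zero.2 hf0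
  have key : ∀ x : L, eval (l * x) ((integralNormalization f).map φ) =
      l ^ (f.natDegree - 1) * eval x (f.map φ) := by
    intro x
    rw [eval_map, eval_map]
    exact integralNormalization_eval₂_leadingCoeff_mul hdeg φ x
  have hcomp : ((integralNormalization f).map φ).comp (C l * X) = C (l ^ (f.natDegree - 1)) * f.map φ := by
    apply Polynomial.funext
    intro x
    rw [eval_comp, eval_mul, eval_C, eval_X, key, eval_mul, eval_C]
  have hs' : ((integralNormalization f).map φ).Splits := by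
    rw [hφ, ← Polynomial.map_map]; exact hs
  constructor
  · rw [Polynomial.map_map, ← hφ]
    have h1 : (((integralNormalization f).map φ).comp (C l * X)).Splits :=
      hs'.comp_of_natDegree_le_one ((natDegree_C_mul_le _ _).trans natDegree_X_le)
    rw [hcomp] at h1
    refine h1.of_dvd ?_ (Dvd.intro_left _ rfl)
    refine mul_ne_zero ?_ ?_
    · rw [Ne, C_eq_zero]; exact pow_ne_zero _ hl0
    · rw [Ne, Polynomial.map_eq_zero_iff hinj]; exact hf0
  · intro g
    obtain ⟨ω, hω⟩ := hfix g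
    refine ⟨((ω : 𝓞 L) : L) / l, ?_, ?_⟩
    · have h1 : eval (((ω : 𝓞 L) : L)) ((integralNormalization f).map φ) = 0 := by
        have h2 : eval₂ (algebraMap (𝓞 ℚ) (𝓞 L)) (ω : 𝓞 L) (integralNormalization f) = 0 := ω.2
        have h3 := congrArg (algebraMap (𝓞 L) L) h2
        rw [Polynomial.hom_eval₂, map_zero] at h3
        rw [eval_map]
        exact h3
      have h2 := key (((ω : 𝓞 L) : L) / l)
      rw [mul_div_cancel₀ _ hl0, h1] at h2
      have h3 := (mul_eq_zero.1 h2.symm).resolve_left (pow_ne_zero _ hl0)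
      rw [aeval_def, eval₂_map, ← hφ, ← eval_map]
      exact h3
    · have h1 : g ((ω : 𝓞 L) : L) = ((ω : 𝓞 L) : L) := by
        have h2 := congrArg (fun z : H53SCD.Om L (integralNormalization f) => (((z : 𝓞 L)) : L)) hω
        exact h2
      have h2 : g l = l := by
        rw [hl, hφ, RingHom.comp_apply]
        exact g.commutes _
      rw [map_div₀, h1, h2]

private theorem exists_split99 {k : Type} [Field k] [NumberField k] (p : k[X]) :
    ∃ (L : Type) (_ : Field L) (_ : NumberField L) (_ : Algebra k L) (_ : FiniteDimensional k L)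
      (_ : IsGalois k L), (p.map (algebraMap k L)).Splits := by
  let L := p.SplittingField
  have hL0 : CharZero L := charZero_of_injective_algebraMap (algebraMap k L).injective
  have hLfin : FiniteDimensional k L := inferInstance
  have hLnf : NumberField L :=
    { to_charZero := hL0
      to_finiteDimensional := by
        have : Module.Finite ℚ k := inferInstance
        exact Module.Finite.trans k L }
  have hLgal : IsGalois k L := by
    have : Normal k L := Normal.of_isSplittingField p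
    exact ⟨⟩
  exact ⟨L, inferInstance, hLnf, inferInstance, hLfin, hLgal, SplittingField.splits _⟩

/-- The final theorem from the blocks. -/
theorem final (hA : StmtA) (hB : StmtB) (hC : StmtC1) : StmtFinal := by
  classical
  intro f hdeg hsep hroot
  have hcomp : (algebraMap (𝓞 ℚ) ℚ).comp (algebraMap ℤ (𝓞 ℚ)) = Int.castRingHom ℚ := RingHom.ext_int _ _
  have hmap : (f.map (algebraMap ℤ (𝓞 ℚ))).map (algebraMap (𝓞 ℚ) ℚ) = f.map (Int.castRingHom ℚ) := by
    rw [Polynomial.map_map, hcomp]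
  have hdeg' : (f.map (algebraMap ℤ (𝓞 ℚ))).natDegree = 6 := by
    rw [natDegree_map_eq_of_injective (FaithfulSMul.algebraMap_injective ℤ (𝓞 ℚ)), hdeg]
  set F := f.map (algebraMap ℤ (𝓞 ℚ)) with hF
  have hF0 : F ≠ 0 := by rintro h; rw [h] at hdeg'; simp at hdeg'
  set h := integralNormalization F with hh
  obtain ⟨L, iF, iN, iA, iD, iG, hs⟩ := exists_split99 (h.map (algebraMap (𝓞 ℚ) ℚ))
  by_cases hfree : ∃ g : L ≃ₐ[ℚ] L, ∀ ω : H53SCD.Om L h, g • ω ≠ ω
  · exact case_one99 hdeg (by rw [hmap]; exact hsep) (inf99 (f := F) (by omega) L hs hfree)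
  · push Not at hfree
    obtain ⟨h1, h2⟩ := case_two_split99 (f := F) (by omega) L hs hfree
    rw [hmap] at h1 h2
    obtain ⟨q, hq1, hq2, hq3, κ, hκ, hf⟩ := hC (f.map (Int.castRingHom ℚ)) (by
      rw [natDegree_map_eq_of_injective (RingHom.injective_int _), hdeg]) hsep (fun a ha => by
        apply hroot a
        rw [eval_map] at ha
        rw [aeval_def]
        exact ha) L h1 h2
    exact case_two99 hA hB hsep hq1 hq2 hq3 hκ hf

end Pool.Agent.HP
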